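import Pool.Agent.Helper50.Drop.CoDefs

/-!
# The parity identity (piece PAR)
-/

set_option autoImplicit false

namespace Pool.Agent.Helper50.Drop

open Finset MeasureTheory
open scoped RealInnerProductSpace
open Pool.Agent.Helper76.Freq (Q ins tr gr ev cobd cup Pr Adm gp Dep Nrm R3 E6 ver pt qf IsTop IsBot
  H4 exists_isTop exists_isBot sk mix)

namespace Par

variable {Y : Type}

/-- `a` is a cocycle on the set `S` -/
def Coc (a : Y → Y → ZMod 2) (S : Set Y) : Prop :=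
  ∀ p ∈ S, ∀ q ∈ S, ∀ r ∈ S, a p q + a q r = a p r

theorem two0 : (2 : ZMod 2) = 0 := rfl

theorem mem0 (x : ℕ → ℕ → Y) (k : ℕ) {i : ℕ} (hi : i < 3) : x i k ∈ near3 x k :=
  ⟨i, hi, Or.inl rfl⟩

theorem mem1 (x : ℕ → ℕ → Y) (k : ℕ) {i : ℕ} (hi : i < 3) : x i (k + 1) ∈ near3 x k :=
  ⟨i, hi, Or.inr rfl⟩

theorem psum_zero (b : Y → Y → ZMod 2) (x : ℕ → Y) : psum b x 0 = 0 := by simp [psum]

theorem psum_succ (b : Y → Y → ZMod 2) (x : ℕ → Y) (k : ℕ) :
    psum b x (k + 1) = psum b x k + b (x k) (x (k + 1)) := by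
  simp [psum, sum_range_succ]

/-- transport of the values of the cochain on the edges between two loops -/
theorem trans_eq {N : ℕ} (a : Y → Y → ZMod 2) (x : ℕ → ℕ → Y)
    (ha : ∀ k < N, Coc a (near3 x k)) {i j : ℕ} (hi : i < 3) (hj : j < 3) {k : ℕ} (hk : k ≤ N) :
    a (x i k) (x j k) = a (x i 0) (x j 0) + psum a (x i) k + psum a (x j) k := by
  induction k with
  | zero => simp [psum_zero]
  | succ k ih =>
    have h := ha k (by omega)
    have e1 := h _ (mem0 x k hi) _ (mem1 x k hi) _ (mem1 x k hj)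
    have e2 := h _ (mem0 x k hi) _ (mem0 x k hj) _ (mem1 x k hj)
    rw [psum_succ, psum_succ]
    have ih' := ih (by omega)
    linear_combination e1 - e2 + ih' - a (x i k) (x i (k + 1)) * two0

theorem gpsum {N : ℕ} (b b' : Y → Y → ZMod 2) (g : Y → ZMod 2) (x : ℕ → ℕ → Y)
    (hg : ∀ k < N, ∀ p ∈ near3 x k, ∀ q ∈ near3 x k, b' p q = b p q + g p + g q)
    {i : ℕ} (hi : i < 3) {k : ℕ} (hk : k ≤ N) :
    psum b' (x i) k = psum b (x i) k + g (x i 0) + g (x i k) := by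
  induction k with
  | zero => simp only [psum_zero]; linear_combination - g (x i 0) * two0
  | succ k ih =>
    have h := hg k (by omega) _ (mem0 x k hi) _ (mem1 x k hi)
    rw [psum_succ, psum_succ, h, ih (by omega)]
    linear_combination g (x i k) * two0

end Par

open Par

/-- holonomy is locally constant -/
theorem psum_eq {Y : Type} {N : ℕ} (a : Y → Y → ZMod 2) (x : ℕ → ℕ → Y)
    (hcl : ∀ i < 3, x i N = x i 0)
    (ha : ∀ k < N, ∀ p ∈ near3 x k, ∀ q ∈ near3 x k, ∀ r ∈ near3 x k, a p q + a q r = a p r)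
    {i j : ℕ} (hi : i < 3) (hj : j < 3) : psum a (x i) N = psum a (x j) N := by
  have h := trans_eq a x ha hi hj le_rfl
  rw [hcl i hi, hcl j hj] at h
  linear_combination - h - psum a (x j) N * two0

namespace Par

variable {Y : Type}

theorem pr2 (b a : Y → Y → ZMod 2) (z : ℕ → Y × Y) :
    Pr 2 (cup 1 (c1 b) (c1 a)) z =
      b (z 0).1 (z 0).2 * a (z 0).2 (z 1).2 + b (z 0).1 (z 1).1 * a (z 1).1 (z 1).2 := by
  simp only [Pr, cup, c1, mix, sum_range_succ, range_zero, sum_empty]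
  norm_num

theorem pr3 (b' b a : Y → Y → ZMod 2) (z : ℕ → Y × Y) :
    Pr 3 (cup 1 (c1 b') (cup 1 (c1 b) (c1 a))) z =
      b' (z 0).1 (z 0).2 * (b (z 0).2 (z 1).2 * a (z 1).2 (z 2).2) +
      b' (z 0).1 (z 1).1 * (b (z 1).1 (z 1).2 * a (z 1).2 (z 2).2 +
        b (z 1).1 (z 2).1 * a (z 2).1 (z 2).2) := by
  simp only [Pr, cup, c1, mix, sum_range_succ, range_zero, sum_empty]
  norm_num
  ring

/-- the first step -/
theorem stepOne {N : ℕ} (a b b' : Y → Y → ZMod 2) (x : ℕ → ℕ → Y)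
    (ha : ∀ k < N, Coc a (near3 x k)) (hb : ∀ k < N, Coc b (near3 x k))
    (hb' : ∀ k < N, Coc b' (near3 x k)) (p : ℕ → ℕ → ℕ → ZMod 2)
    (hp : ∀ i j k, p i j k = b (x i k) (x i (k + 1)) * a (x i (k + 1)) (x j (k + 1)) +
      b (x i k) (x j k) * a (x j k) (x j (k + 1)))
    {k : ℕ} (hk : k ≤ N) :
    ∑ j ∈ range k, (b' (x 0 j) (x 0 (j + 1)) * (b (x 0 (j + 1)) (x 1 (j + 1)) *
        a (x 1 (j + 1)) (x 2 (j + 1))) + b' (x 0 j) (x 1 j) * p 1 2 j) =
      (∑ j ∈ range k, psum b' (x 1) j * p 1 2 j) + (∑ j ∈ range k, psum b' (x 0) j * p 0 2 j) +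
      (∑ j ∈ range k, psum b' (x 0) j * p 0 1 j) +
      b' (x 0 0) (x 1 0) * (∑ j ∈ range k, p 1 2 j) +
      psum b' (x 0) k * (b (x 0 k) (x 1 k) * a (x 1 k) (x 2 k)) := by
  induction k with
  | zero => simp [psum_zero]
  | succ k ih =>
    have ih' := ih (by omega)
    have hk' : k < N := by omega
    simp only [sum_range_succ]
    rw [ih']
    have t := trans_eq b' x hb' (show 0 < 3 by norm_num) (show 1 < 3 by norm_num) hk'.le
    rw [psum_succ, t]
    have A := ha k hk'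
    have B := hb k hk'
    have h0 := mem0 x k (show 0 < 3 by norm_num)
    have h1 := mem0 x k (show 1 < 3 by norm_num)
    have h2 := mem0 x k (show 2 < 3 by norm_num)
    have g0 := mem1 x k (show 0 < 3 by norm_num)
    have g1 := mem1 x k (show 1 < 3 by norm_num)
    have g2 := mem1 x k (show 2 < 3 by norm_num)
    have key : p 1 2 k + p 0 2 k + p 0 1 k + b (x 0 k) (x 1 k) * a (x 1 k) (x 2 k) +
        b (x 0 (k + 1)) (x 1 (k + 1)) * a (x 1 (k + 1)) (x 2 (k + 1)) = 0 := by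
      rw [hp, hp, hp]
      have a1 := A _ g0 _ g1 _ g2
      have a2 := A _ h1 _ h2 _ g2
      have a3 := A _ h1 _ g1 _ g2
      have b1 := B _ h0 _ h1 _ h2
      have b2 := B _ h0 _ g0 _ g1
      have b3 := B _ h0 _ h1 _ g1
      rw [← a1, ← b1]
      have c1 : a (x 2 k) (x 2 (k + 1)) = a (x 1 k) (x 1 (k + 1)) +
          a (x 1 (k + 1)) (x 2 (k + 1)) + a (x 1 k) (x 2 k) := by
        linear_combination a2 - a3 - a (x 1 k) (x 2 k) * two0
      have c2 : b (x 0 (k + 1)) (x 1 (k + 1)) = b (x 0 k) (x 1 k) + b (x 1 k) (x 1 (k + 1)) +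
          b (x 0 k) (x 0 (k + 1)) := by
        linear_combination b2 - b3 - b (x 0 k) (x 0 (k + 1)) * two0
      rw [c1, c2]
      generalize a (x 1 k) (x 1 (k + 1)) = u1
      generalize a (x 1 (k + 1)) (x 2 (k + 1)) = u2
      generalize a (x 1 k) (x 2 k) = u3
      generalize a (x 0 (k + 1)) (x 1 (k + 1)) = u4
      generalize b (x 0 k) (x 1 k) = v1
      generalize b (x 1 k) (x 1 (k + 1)) = v2
      generalize b (x 0 k) (x 0 (k + 1)) = v3
      generalize b (x 1 k) (x 2 k) = v4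
      ring_nf
      reduce_mod_char
    generalize (∑ j ∈ range k, psum b' (x 1) j * p 1 2 j) = s1
    generalize (∑ j ∈ range k, psum b' (x 0) j * p 0 2 j) = s2
    generalize (∑ j ∈ range k, psum b' (x 0) j * p 0 1 j) = s3
    generalize (∑ j ∈ range k, p 1 2 j) = s4
    linear_combination psum b' (x 0) k * key - psum b' (x 0) k * (p 0 2 k + p 0 1 k) * two0 -
      psum b' (x 0) k * b (x 0 (k + 1)) (x 1 (k + 1)) * a (x 1 (k + 1)) (x 2 (k + 1)) * two0

/-- the second step -/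
theorem stepTwo {N : ℕ} (a b : Y → Y → ZMod 2) (x : ℕ → ℕ → Y)
    (ha : ∀ k < N, Coc a (near3 x k)) (hb : ∀ k < N, Coc b (near3 x k))
    {m n : ℕ} (hm : m < 3) (hn : n < 3) {k : ℕ} (hk : k ≤ N) :
    ∑ j ∈ range k, (b (x m j) (x m (j + 1)) * a (x m (j + 1)) (x n (j + 1)) +
      b (x m j) (x n j) * a (x n j) (x n (j + 1))) =
      (∑ j ∈ range k, psum b (x m) j * a (x m j) (x m (j + 1))) +
      (∑ j ∈ range k, psum b (x n) j * a (x n j) (x n (j + 1))) +
      b (x m 0) (x n 0) * psum a (x n) k + psum b (x m) k * a (x m k) (x n k) := by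
  induction k with
  | zero => simp [psum_zero]
  | succ k ih =>
    have ih' := ih (by omega)
    have hk' : k < N := by omega
    simp only [sum_range_succ]
    rw [ih']
    have t := trans_eq b x hb hm hn hk'.le
    rw [psum_succ, psum_succ, t]
    have A := ha k hk'
    have h0 := mem0 x k hm
    have h1 := mem0 x k hn
    have g0 := mem1 x k hm
    have g1 := mem1 x k hn
    have a1 := A _ h0 _ g0 _ g1
    have a2 := A _ h0 _ h1 _ g1
    have c1 : a (x n k) (x n (k + 1)) = a (x m k) (x m (k + 1)) + a (x m (k + 1)) (x n (k + 1)) +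
        a (x m k) (x n k) := by
      linear_combination a2 - a1 - a (x m k) (x n k) * two0
    generalize (∑ j ∈ range k, psum b (x m) j * a (x m j) (x m (j + 1))) = s1
    generalize (∑ j ∈ range k, psum b (x n) j * a (x n j) (x n (j + 1))) = s2
    rw [c1]
    generalize a (x m k) (x m (k + 1)) = u1
    generalize a (x m (k + 1)) (x n (k + 1)) = u2
    generalize a (x m k) (x n k) = u3
    generalize b (x m k) (x m (k + 1)) = u4
    generalize b (x m 0) (x n 0) = u5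
    generalize psum b (x m) k = u6
    generalize psum b (x n) k = u7
    generalize psum a (x n) k = u8
    ring_nf
    reduce_mod_char

theorem cobd1 (Φ : (ℕ → ℕ → Y) → ZMod 2) (x : ℕ → ℕ → Y) :
    cobd 1 Φ x = Φ (fun j => x (sk 0 j)) + Φ (fun j => x (sk 1 j)) + Φ (fun j => x (sk 2 j)) := by
  simp only [cobd, sum_range_succ, range_zero, sum_empty]
  norm_num

end Par

theorem parity {Y : Type} {N : ℕ} (a b b' : Y → Y → ZMod 2) (g : Y → ZMod 2) (x : ℕ → ℕ → Y)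
    (hcl : ∀ i < 3, x i N = x i 0)
    (ha : ∀ k < N, ∀ p ∈ near3 x k, ∀ q ∈ near3 x k, ∀ r ∈ near3 x k, a p q + a q r = a p r)
    (hb : ∀ k < N, ∀ p ∈ near3 x k, ∀ q ∈ near3 x k, ∀ r ∈ near3 x k, b p q + b q r = b p r)
    (hb' : ∀ k < N, ∀ p ∈ near3 x k, ∀ q ∈ near3 x k, ∀ r ∈ near3 x k, b' p q + b' q r = b' p r)
    (hg : ∀ k < N, ∀ p ∈ near3 x k, ∀ q ∈ near3 x k, b' p q = b p q + g p + g q) :
    ∑ j ∈ range N, Pr 3 (cup 1 (c1 b') (cup 1 (c1 b) (c1 a))) (fun i => (x i j, x i (j + 1))) =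
      cobd 1 (zeta N a b b' g) x + psum a (x 0) N * (b (x 0 0) (x 1 0) * b (x 1 0) (x 2 0)) := by
  rcases Nat.eq_zero_or_pos N with rfl | hN
  · simp [cobd1, zeta, psum_zero]
  have l0 : 0 < 3 := by norm_num
  have l1 : 1 < 3 := by norm_num
  have l2 : 2 < 3 := by norm_num
  have e1 := psum_eq a x hcl ha l0 l1
  have e2 := psum_eq a x hcl ha l0 l2
  have f1 := psum_eq b x hcl hb l0 l1
  have gp := gpsum b b' g x hg l0 le_rfl
  rw [hcl 0 l0] at gp
  have gp' : psum b' (x 0) N = psum b (x 0) N := by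
    rw [gp]; linear_combination g (x 0 0) * two0
  let p : ℕ → ℕ → ℕ → ZMod 2 := fun i j k =>
    b (x i k) (x i (k + 1)) * a (x i (k + 1)) (x j (k + 1)) +
      b (x i k) (x j k) * a (x j k) (x j (k + 1))
  have s1 := stepOne a b b' x ha hb hb' p (fun _ _ _ => rfl) le_rfl
  have s2 := stepTwo a b x ha hb l1 l2 le_rfl
  have hL : ∑ j ∈ range N, Pr 3 (cup 1 (c1 b') (cup 1 (c1 b) (c1 a)))
      (fun i => (x i j, x i (j + 1))) = ∑ j ∈ range N, (b' (x 0 j) (x 0 (j + 1)) *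
        (b (x 0 (j + 1)) (x 1 (j + 1)) *
        a (x 1 (j + 1)) (x 2 (j + 1))) + b' (x 0 j) (x 1 j) * p 1 2 j) :=
    sum_congr rfl fun j _ => pr3 b' b a _
  rw [hL, s1, cobd1]
  simp only [zeta, pr2, sk]
  norm_num
  have s2' : ∑ j ∈ range N, p 1 2 j = _ := s2
  rw [s2', gp', ← e2, ← f1, ← e1]
  simp only [p, hcl 0 l0, hcl 1 l1, hcl 2 l2]
  have m0 := mem0 x 0 l0
  have m1 := mem0 x 0 l1
  have m2 := mem0 x 0 l2
  have a02 := ha 0 hN _ m0 _ m1 _ m2
  have b02 := hb 0 hN _ m0 _ m1 _ m2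
  have b02' := hb' 0 hN _ m0 _ m1 _ m2
  have g01 := hg 0 hN _ m0 _ m1
  rw [← a02, ← b02, ← b02', g01]
  generalize ∑ j ∈ range N, psum b' (x 1) j * (b (x 1 j) (x 1 (j + 1)) *
    a (x 1 (j + 1)) (x 2 (j + 1)) + b (x 1 j) (x 2 j) * a (x 2 j) (x 2 (j + 1))) = t1
  generalize ∑ j ∈ range N, psum b' (x 0) j * (b (x 0 j) (x 0 (j + 1)) *
    a (x 0 (j + 1)) (x 2 (j + 1)) + b (x 0 j) (x 2 j) * a (x 2 j) (x 2 (j + 1))) = t2
  generalize ∑ j ∈ range N, psum b' (x 0) j * (b (x 0 j) (x 0 (j + 1)) *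
    a (x 0 (j + 1)) (x 1 (j + 1)) + b (x 0 j) (x 1 j) * a (x 1 j) (x 1 (j + 1))) = t3
  generalize ∑ j ∈ range N, psum b (x 1) j * a (x 1 j) (x 1 (j + 1)) = t4
  generalize ∑ j ∈ range N, psum b (x 2) j * a (x 2 j) (x 2 (j + 1)) = t5
  generalize b' (x 1 0) (x 2 0) = u1
  generalize b (x 1 0) (x 2 0) = u2
  generalize b (x 0 0) (x 1 0) = u3
  generalize a (x 1 0) (x 2 0) = u4
  generalize a (x 0 0) (x 1 0) = u5
  generalize g (x 0 0) = u6
  generalize g (x 1 0) = u7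
  generalize psum a (x 0) N = u8
  generalize psum b (x 0) N = u9
  ring_nf
  reduce_mod_char

/-- `zeta` is a normalised cochain -/
theorem zeta_dep {Y : Type} (N : ℕ) (a b b' : Y → Y → ZMod 2) (g : Y → ZMod 2) :
    Dep 1 (zeta N a b b' g) := by
  intro y y' h
  have h0 := h 0 (by norm_num)
  have h1 := h 1 le_rfl
  simp only [zeta, pr2, h0, h1]

theorem zeta_nrm {Y : Type} (N : ℕ) (a b b' : Y → Y → ZMod 2) (g : Y → ZMod 2)
    (ha : ∀ p, a p p = 0) (hb : ∀ p, b p p = 0) (hb' : ∀ p, b' p p = 0) :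
    Nrm 1 (zeta N a b b' g) := by
  rintro y ⟨j, hj, hjj⟩
  obtain rfl : j = 0 := by omega
  simp only [zeta, pr2]
  have h0 : y 1 = y 0 := hjj.symm
  simp [h0, ha, hb, hb']

end Pool.Agent.Helper50.Drop
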